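import Mathlib

/-!
The factor group lemma for `G = ⟨z⟩ ⋊ Q`.
-/

set_option autoImplicit false

namespace Pool.Agent.Lib.MP_688fd0_co.OSF.H43

open Function

section orbit

variable {X : Type*} [Finite X]

/-- A map with one orbit: the minimal period is the number of elements. -/
theorem minimalPeriod_of_orbit (f : X → X) (x : X) (hx : x ∈ periodicPts f)
    (h : ∀ y, ∃ k, f^[k] x = y) : minimalPeriod f x = Nat.card X := by
  have hp : 0 < minimalPeriod f x := minimalPeriod_pos_iff_mem_periodicPts.2 hx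
  have hb : Bijective (fun i : Fin (minimalPeriod f x) => f^[(i : ℕ)] x) := by
    constructor
    · intro i j hij
      exact Fin.ext (iterate_injOn_Iio_minimalPeriod (Set.mem_Iio.2 i.2) (Set.mem_Iio.2 j.2) hij)
    · intro y
      obtain ⟨k, hk⟩ := h y
      exact ⟨⟨k % minimalPeriod f x, Nat.mod_lt _ hp⟩, by
        simp only
        rw [iterate_mod_minimalPeriod_eq, hk]⟩
  have := Nat.card_congr (Equiv.ofBijective _ hb)
  rw [← this]
  simp

/-- A map with one orbit: the sum over the orbit. -/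
theorem sum_orbit {M : Type*} [AddCommMonoid M] [Fintype X] (f : X → X) (x : X)
    (hx : x ∈ periodicPts f) (h : ∀ y, ∃ k, f^[k] x = y) (F : X → M) :
    ∑ i ∈ Finset.range (Nat.card X), F (f^[i] x) = ∑ y, F y := by
  have hp : 0 < minimalPeriod f x := minimalPeriod_pos_iff_mem_periodicPts.2 hx
  rw [← minimalPeriod_of_orbit f x hx h]
  refine Finset.sum_bij (fun i _ => f^[i] x) (fun _ _ => Finset.mem_univ _) ?_ ?_
    (fun _ _ => rfl)
  · intro i hi j hj hij
    exact iterate_injOn_Iio_minimalPeriod (Set.mem_Iio.2 (Finset.mem_range.1 hi))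
      (Set.mem_Iio.2 (Finset.mem_range.1 hj)) hij
  · intro y _
    obtain ⟨k, hk⟩ := h y
    exact ⟨k % minimalPeriod f x, Finset.mem_range.2 (Nat.mod_lt _ hp), by
      rw [iterate_mod_minimalPeriod_eq, hk]⟩

end orbit

/-- A map `g ↦ g * l g` with one orbit gives a listing sequence. -/
theorem listing_of_orbit {G : Type*} [Group G] [Finite G] (A : Set G) (l : G → G)
    (hl : ∀ g, l g ∈ A) (h1 : (1 : G) ∈ periodicPts (fun g => g * l g))
    (h : ∀ y, ∃ k, (fun g => g * l g)^[k] 1 = y) :
    ∃ a : Fin (Nat.card G) → G, (∀ i, a i ∈ A) ∧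
      Injective (fun k : Fin (Nat.card G) => ((List.ofFn a).take (k + 1)).prod) ∧
      (List.ofFn a).prod = 1 := by
  set f : G → G := fun g => g * l g with hf
  have hper := minimalPeriod_of_orbit f 1 h1 h
  set a : Fin (Nat.card G) → G := fun i => l (f^[(i : ℕ)] 1) with ha
  have key : ∀ k ≤ Nat.card G, ((List.ofFn a).take k).prod = f^[k] 1 := by
    intro k
    induction k with
    | zero => intro _; simp
    | succ k ih =>
      intro hk
      have hk' : k < (List.ofFn a).length := by rw [List.length_ofFn]; omega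
      rw [List.prod_take_succ _ _ hk', ih (by omega), iterate_succ_apply']
      simp only [List.getElem_ofFn, ha, hf]
  refine ⟨a, fun i => hl _, ?_, ?_⟩
  · intro i j hij
    simp only at hij
    rw [key _ (by omega), key _ (by omega)] at hij
    -- `f^[i+1] 1 = f^[j+1] 1`
    by_contra hne
    have hne' : (i : ℕ) ≠ j := fun e => hne (Fin.ext e)
    have hi := i.2
    have hj := j.2
    rcases Nat.lt_or_gt_of_ne hne' with hlt | hlt
    · rcases Nat.lt_or_ge ((j : ℕ) + 1) (minimalPeriod f 1) with h3 | h3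
      · have := iterate_injOn_Iio_minimalPeriod (f := f) (x := 1)
          (Set.mem_Iio.2 (lt_trans (Nat.succ_lt_succ hlt) h3)) (Set.mem_Iio.2 h3) hij
        omega
      · have e : (j : ℕ) + 1 = minimalPeriod f 1 := by omega
        rw [e, iterate_minimalPeriod] at hij
        have := iterate_injOn_Iio_minimalPeriod (f := f) (x := 1)
          (Set.mem_Iio.2 (show (i : ℕ) + 1 < minimalPeriod f 1 by omega))
          (Set.mem_Iio.2 (show 0 < minimalPeriod f 1 by omega)) hij
        omega
    · rcases Nat.lt_or_ge ((i : ℕ) + 1) (minimalPeriod f 1) with h3 | h3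
      · have := iterate_injOn_Iio_minimalPeriod (f := f) (x := 1)
          (Set.mem_Iio.2 h3) (Set.mem_Iio.2 (lt_trans (Nat.succ_lt_succ hlt) h3)) hij
        omega
      · have e : (i : ℕ) + 1 = minimalPeriod f 1 := by omega
        rw [e, iterate_minimalPeriod] at hij
        have := iterate_injOn_Iio_minimalPeriod (f := f) (x := 1)
          (Set.mem_Iio.2 (show 0 < minimalPeriod f 1 by omega))
          (Set.mem_Iio.2 (show (j : ℕ) + 1 < minimalPeriod f 1 by omega)) hij
        omega
  · have h3 := key (Nat.card G) le_rfl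
    rw [List.take_of_length_le (by rw [List.length_ofFn])] at h3
    rw [h3, ← hper, iterate_minimalPeriod]

/-- The factor group lemma. -/
theorem factor {G Q : Type*} [Group G] [Finite G] [Group Q] [Fintype Q] {m : ℕ}
    (π : G →* Q) (s : Q →* G) (hs : ∀ q, π (s q) = q) (z : G) (hz : π z = 1)
    (hm : orderOf z = m) (hker : ∀ g, π g = 1 → g ∈ Subgroup.zpowers z)
    (chi : Q →* ZMod m) (hchi : ∀ q, s q * z * (s q)⁻¹ = z ^ (chi q).val)
    (ν : G → ZMod m) (hν : ∀ g, g = z ^ (ν g).val * s (π g)) (A : Set G)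
    (nxt : Q → Q) (lab : Q → G) (hA : ∀ x, lab x ∈ A) (hnxt : ∀ x, nxt x = x * π (lab x))
    (hcyc : ∀ x y, ∃ k, nxt^[k] x = y) (hv : IsUnit (∑ x, chi x * ν (lab x))) :
    ∃ a : Fin (Nat.card G) → G, (∀ i, a i ∈ A) ∧
      Injective (fun k : Fin (Nat.card G) => ((List.ofFn a).take (k + 1)).prod) ∧
      (List.ofFn a).prod = 1 := by
  have hm0 : 0 < m := hm ▸ orderOf_pos z
  haveI : NeZero m := ⟨hm0.ne'⟩
  -- powers of `z`
  have hmod : ∀ n : ℕ, z ^ (n % m) = z ^ n := by
    intro n
    rw [← hm, pow_mod_orderOf]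
  have hzm : z ^ m = 1 := by
    rw [← hm]
    exact pow_orderOf_eq_one z
  have zval : ∀ n : ℕ, z ^ ((n : ZMod m)).val = z ^ n := by
    intro n
    rw [ZMod.val_natCast, hmod]
  have zadd : ∀ a b : ZMod m, z ^ (a + b).val = z ^ a.val * z ^ b.val := by
    intro a b
    rw [ZMod.val_add, ← pow_add, hmod]
  have zmul : ∀ a b : ZMod m, z ^ (a * b).val = (z ^ a.val) ^ b.val := by
    intro a b
    rw [ZMod.val_mul, ← pow_mul, hmod]
  set f : G → G := fun g => g * lab (π g) with hf
  have hπf : ∀ g, π (f g) = nxt (π g) := by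
    intro g
    rw [hf, hnxt]
    simp
  have hπfk : ∀ k g, π (f^[k] g) = nxt^[k] (π g) := by
    intro k
    induction k with
    | zero => intro g; rfl
    | succ k ih =>
      intro g
      rw [iterate_succ_apply', iterate_succ_apply', hπf, ih]
  have hfmul : ∀ h g, π h = 1 → f (h * g) = h * f g := by
    intro h g hh
    simp only [hf, map_mul, hh, one_mul, mul_assoc]
  have hfkmul : ∀ k h g, π h = 1 → f^[k] (h * g) = h * f^[k] g := by
    intro k
    induction k with
    | zero => intro h g _; rfl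
    | succ k ih =>
      intro h g hh
      rw [iterate_succ_apply', iterate_succ_apply', ih h g hh, hfmul _ _ hh]
  -- the walk
  have walk : ∀ i, f^[i] 1 =
      z ^ (∑ j ∈ Finset.range i, chi (nxt^[j] 1) * ν (lab (nxt^[j] 1))).val * s (nxt^[i] 1) := by
    intro i
    induction i with
    | zero =>
      simp
    | succ i ih =>
      have hπi : π (f^[i] 1) = nxt^[i] 1 := by rw [hπfk, map_one]
      rw [iterate_succ_apply', iterate_succ_apply', Finset.sum_range_succ, zadd, zmul]
      set x := nxt^[i] 1 with hx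
      have e1 : f (f^[i] 1) = f^[i] 1 * lab x := by
        simp only [hf]
        rw [← hf, hπi]
      rw [e1]
      conv_lhs => rw [hν (lab x), ih]
      rw [hnxt, map_mul, ← hchi]
      have e2 : (s x * z * (s x)⁻¹) ^ (ν (lab x)).val =
          s x * z ^ (ν (lab x)).val * (s x)⁻¹ := by
        rw [conj_pow]
      rw [e2]
      group
  have hnp : ∀ x, x ∈ periodicPts nxt := by
    intro x
    obtain ⟨k, hk⟩ := hcyc (nxt x) x
    refine ⟨k + 1, Nat.succ_pos _, ?_⟩
    show nxt^[k + 1] x = x
    rw [iterate_succ_apply, hk]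
  set v : ZMod m := ∑ x, chi x * ν (lab x) with hvdef
  have hround : f^[Nat.card Q] 1 = z ^ v.val := by
    rw [walk, sum_orbit nxt 1 (hnp 1) (fun y => hcyc 1 y) (fun x => chi x * ν (lab x)), ← hvdef,
      ← minimalPeriod_of_orbit nxt 1 (hnp 1) (fun y => hcyc 1 y), iterate_minimalPeriod, map_one,
      mul_one]
  have hzv : ∀ j : ℕ, π ((z ^ v.val) ^ j) = 1 := by
    intro j
    simp [hz]
  have hrounds : ∀ j : ℕ, f^[Nat.card Q * j] 1 = (z ^ v.val) ^ j := by
    intro j
    induction j with
    | zero => simp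
    | succ j ih =>
      rw [Nat.mul_succ, Nat.add_comm, iterate_add_apply, ih]
      have := hfkmul (Nat.card Q) ((z ^ v.val) ^ j) 1 (hzv j)
      rw [mul_one] at this
      rw [this, hround, pow_succ]
  have horb : ∀ y, ∃ k, f^[k] 1 = y := by
    intro y
    obtain ⟨t, ht⟩ := hcyc 1 (π y)
    have h1 : π (y * (f^[t] 1)⁻¹) = 1 := by
      rw [map_mul, map_inv, hπfk, map_one, ht, mul_inv_cancel]
    have h2 : ∃ n : ℕ, z ^ n = y * (f^[t] 1)⁻¹ := by
      have h3 := hker _ h1
      rw [← mem_powers_iff_mem_zpowers] at h3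
      exact (Submonoid.mem_powers_iff _ _).1 h3
    obtain ⟨n, hn⟩ := h2
    obtain ⟨w, hw⟩ := hv.exists_left_inv
    -- `(z ^ v) ^ j = z ^ n` for `j = n * w`
    have h4 : (z ^ v.val) ^ ((n : ZMod m) * w).val = z ^ n := by
      rw [← zmul]
      have : v * ((n : ZMod m) * w) = (n : ZMod m) := by
        calc v * ((n : ZMod m) * w) = (n : ZMod m) * (w * v) := by ring
          _ = n := by rw [hw, mul_one]
      rw [this, zval]
    refine ⟨t + Nat.card Q * ((n : ZMod m) * w).val, ?_⟩
    rw [iterate_add_apply, hrounds, h4, hn]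
    have h5 := hfkmul t (y * (f^[t] 1)⁻¹) 1 h1
    rw [mul_one] at h5
    rw [h5, mul_assoc, inv_mul_cancel, mul_one]
  have hone : (1 : G) ∈ periodicPts f := by
    refine ⟨Nat.card Q * m, Nat.mul_pos Nat.card_pos hm0, ?_⟩
    show f^[Nat.card Q * m] 1 = 1
    rw [hrounds, ← pow_mul, mul_comm, pow_mul, hzm, one_pow]
  exact listing_of_orbit A (fun g => lab (π g)) (fun g => hA _) hone horb

end Pool.Agent.Lib.MP_688fd0_co.OSF.H43
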