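import Mathlib

/-!
Choice of the numbers of flipped windows: finitely many residue classes modulo different odd
primes can be avoided by a small number, and a sum `C + ∑ j_p δ_p` can be made a unit modulo
every `p`.
-/

set_option autoImplicit false

namespace Pool.Agent.Lib.MP_688fd0_co.OSF.H43

open Finset

/-- The numbers `i < N` such that `b + D * i` avoids the residue classes `a p` modulo `p`. -/
def av (P : Finset ℕ) (a : ℕ → ℤ) (b D : ℤ) (N : ℕ) : Finset ℕ :=
  (range N).filter (fun i => ∀ p ∈ P, ¬ (p : ℤ) ∣ b + D * i - a p)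

theorem av_empty (a : ℕ → ℤ) (b D : ℤ) (N : ℕ) : (av ∅ a b D N).card = N := by
  simp [av]

theorem av_insert (P : Finset ℕ) (q : ℕ) (hq : q.Prime) (hqP : q ∉ P) (a : ℕ → ℤ)
    (b D : ℤ) (hD : IsCoprime D (q : ℤ)) (N : ℕ) :
    ∃ (b' : ℤ) (N' : ℕ), (av (insert q P) a b D N).card + (av P a b' (D * q) N').card =
      (av P a b D N).card ∧ (N : ℚ) / q - 1 < N' ∧ (N' : ℚ) < (N : ℚ) / q + 1 := by
  have hq0 : 0 < q := hq.pos
  have hq0' : (0 : ℚ) < q := by exact_mod_cast hq0
  -- the residue class of `i`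
  obtain ⟨u, w, huw⟩ := hD
  set i₀ : ℕ := ((u * (a q - b)) % (q : ℤ)).toNat with hi₀
  have hqz : (0 : ℤ) < q := by exact_mod_cast hq0
  have hi₀z : ((i₀ : ℕ) : ℤ) = (u * (a q - b)) % (q : ℤ) :=
    Int.toNat_of_nonneg (Int.emod_nonneg _ hqz.ne')
  have hi₀q : i₀ < q := by
    have := Int.emod_lt_of_pos (u * (a q - b)) hqz
    rw [← hi₀z] at this
    exact_mod_cast this
  have key : ∀ i : ℕ, ((q : ℤ) ∣ b + D * i - a q) ↔ i % q = i₀ := by
    intro i
    have h1 : (q : ℤ) ∣ (i₀ : ℤ) - u * (a q - b) := by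
      rw [hi₀z, Int.emod_def]
      exact ⟨-(u * (a q - b) / q), by ring⟩
    have h2 : (i % q = i₀) ↔ (q : ℤ) ∣ (i : ℤ) - i₀ := by
      constructor
      · intro h
        have h3 : i % q = i₀ % q := by rw [h, Nat.mod_eq_of_lt hi₀q]
        have h4 : (i₀ : ℕ) ≡ i [MOD q] := h3.symm
        have h5 := (Nat.modEq_iff_dvd.1 h4)
        exact_mod_cast h5
      · intro h
        have h4 : (i₀ : ℕ) ≡ i [MOD q] := Nat.modEq_iff_dvd.2 (by exact_mod_cast h)
        have h5 : i₀ % q = i % q := h4
        rw [← h5, Nat.mod_eq_of_lt hi₀q]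
    rw [h2]
    constructor
    · intro h
      -- i - i₀ = ...
      have e : (i : ℤ) - i₀ = u * (b + D * i - a q) + w * i * q - ((i₀ : ℤ) - u * (a q - b)) := by
        have : (i : ℤ) = (u * D + w * q) * i := by rw [huw]; ring
        linear_combination this
      rw [e]
      exact dvd_sub (dvd_add (dvd_mul_of_dvd_right h _) (dvd_mul_left _ _)) h1
    · intro h
      have e : b + D * i - a q = D * ((i : ℤ) - i₀) + D * ((i₀ : ℤ) - u * (a q - b))
          + w * (b - a q) * q := by
        have : b - a q = (u * D + w * q) * (b - a q) := by rw [huw]; ring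
        linear_combination this
      rw [e]
      exact dvd_add (dvd_add (dvd_mul_of_dvd_right h _) (dvd_mul_of_dvd_right h1 _))
        (dvd_mul_left _ _)
  refine ⟨b + D * i₀, (N + (q - 1 - i₀)) / q, ?_, ?_, ?_⟩
  · have e1 : av (insert q P) a b D N =
        (av P a b D N).filter (fun i : ℕ => ¬ (q : ℤ) ∣ b + D * (i : ℤ) - a q) := by
      ext i
      simp only [av, mem_filter, mem_range, mem_insert, forall_eq_or_imp]
      tauto
    have e2 : (av P a (b + D * i₀) (D * q) ((N + (q - 1 - i₀)) / q)).card =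
        ((av P a b D N).filter (fun i : ℕ => (q : ℤ) ∣ b + D * (i : ℤ) - a q)).card := by
      refine card_bij (fun t _ => i₀ + q * t) ?_ ?_ ?_
      · intro t ht
        simp only [av, mem_filter, mem_range] at ht ⊢
        have ht1 : i₀ + q * t < N := by
          have h3 := ht.1
          rw [Nat.lt_div_iff_mul_lt hq0] at h3
          have : t * q = q * t := mul_comm _ _
          omega
        have e : ∀ c : ℤ, b + D * ((i₀ + q * t : ℕ) : ℤ) - c = b + D * i₀ + D * q * t - c := by
          intro c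
          push_cast
          ring
        refine ⟨⟨ht1, fun p hp => ?_⟩, ?_⟩
        · rw [e]
          exact ht.2 p hp
        · exact (key _).2 (by simp [Nat.mod_eq_of_lt hi₀q])
      · intro t _ t' _ h
        have : q * t = q * t' := by simpa using h
        exact Nat.eq_of_mul_eq_mul_left hq0 this
      · intro i hi
        simp only [av, mem_filter, mem_range] at hi
        obtain ⟨⟨hiN, hiP⟩, hiq⟩ := hi
        rw [key] at hiq
        have hdiv : i₀ + q * (i / q) = i := by
          have := Nat.mod_add_div i q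
          rw [hiq] at this
          exact this
        refine ⟨i / q, ?_, hdiv⟩
        simp only [av, mem_filter, mem_range]
        refine ⟨?_, fun p hp => ?_⟩
        · rw [Nat.lt_div_iff_mul_lt hq0]
          have : i / q * q = q * (i / q) := mul_comm _ _
          omega
        · have h4 := hiP p hp
          have e : b + D * i₀ + D * q * ((i / q : ℕ) : ℤ) - a p = b + D * (i : ℤ) - a p := by
            conv_rhs => rw [← hdiv]
            push_cast
            ring
          rw [e]
          exact h4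
    rw [e1, e2]
    have := card_filter_add_card_filter_not (s := av P a b D N)
      (fun i : ℕ => (q : ℤ) ∣ b + D * (i : ℤ) - a q)
    omega
  · have h3 : N + (q - 1 - i₀) < q * ((N + (q - 1 - i₀)) / q + 1) :=
      Nat.lt_mul_div_succ _ hq0
    have h4 : (N : ℚ) < q * (((N + (q - 1 - i₀)) / q : ℕ) + 1) := by
      have : N < q * ((N + (q - 1 - i₀)) / q + 1) := by omega
      exact_mod_cast this
    rw [sub_lt_iff_lt_add, div_lt_iff₀ hq0']
    linarith [h4, mul_comm (q : ℚ) ((((N + (q - 1 - i₀)) / q : ℕ) : ℚ) + 1)]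
  · have h3 : (N + (q - 1 - i₀)) / q * q ≤ N + (q - 1 - i₀) := Nat.div_mul_le_self _ _
    have h4 : (N + (q - 1 - i₀)) / q * q < N + q := by omega
    have h5 : ((((N + (q - 1 - i₀)) / q : ℕ) : ℚ)) * q < N + q := by exact_mod_cast h4
    rw [← sub_lt_iff_lt_add, lt_div_iff₀ hq0']
    linarith

/-- Inclusion and exclusion. -/
theorem av_bound (P : Finset ℕ) (hP : ∀ p ∈ P, p.Prime) (a : ℕ → ℤ) :
    ∀ (b D : ℤ) (_ : ∀ p ∈ P, IsCoprime D (p : ℤ)) (N : ℕ),
      |((av P a b D N).card : ℚ) - N * ∏ p ∈ P, (1 - 1 / (p : ℚ))| ≤ 2 ^ P.card - 1 := by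
  induction P using Finset.induction_on with
  | empty =>
    intro b D _ N
    rw [av_empty]
    simp
  | insert q P hqP ih =>
    intro b D hD N
    have hPp : ∀ p ∈ P, p.Prime := fun p hp => hP p (mem_insert_of_mem hp)
    have hq : q.Prime := hP q (mem_insert_self _ _)
    obtain ⟨b', N', h1, h2, h3⟩ := av_insert P q hq hqP a b D (hD q (mem_insert_self _ _)) N
    have i1 := ih hPp b D (fun p hp => hD p (mem_insert_of_mem hp)) N
    have i2 := ih hPp b' (D * q) (fun p hp => by
      refine IsCoprime.mul_left (hD p (mem_insert_of_mem hp)) ?_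
      have : q ≠ p := fun h => hqP (h ▸ hp)
      exact Nat.isCoprime_iff_coprime.2 ((Nat.coprime_primes hq (hPp p hp)).2 this)) N'
    rw [prod_insert hqP, card_insert_of_notMem hqP, pow_succ]
    have hprod0 : (0 : ℚ) ≤ ∏ p ∈ P, (1 - 1 / (p : ℚ)) := by
      refine prod_nonneg fun p hp => ?_
      have : (1 : ℚ) ≤ p := by exact_mod_cast (hPp p hp).one_lt.le
      rw [sub_nonneg, div_le_one (by linarith)]
      exact this
    have hprod1 : ∏ p ∈ P, (1 - 1 / (p : ℚ)) ≤ 1 := by
      refine prod_le_one (fun p hp => ?_) (fun p hp => ?_)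
      · have : (1 : ℚ) ≤ p := by exact_mod_cast (hPp p hp).one_lt.le
        rw [sub_nonneg, div_le_one (by linarith)]
        exact this
      · have : (0 : ℚ) ≤ 1 / p := by positivity
        linarith
    set W := ∏ p ∈ P, (1 - 1 / (p : ℚ)) with hW
    have hc : ((av (insert q P) a b D N).card : ℚ) =
        (av P a b D N).card - (av P a b' (D * q) N').card := by
      have : ((av (insert q P) a b D N).card : ℚ) + (av P a b' (D * q) N').card =
        (av P a b D N).card := by exact_mod_cast h1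
      linarith
    rw [hc]
    rw [abs_le] at i1 i2 ⊢
    have h4 : ((N' : ℚ) - N / q) * W ≤ 1 := by
      have h5 : (N' : ℚ) - N / q ≤ 1 := by linarith
      calc ((N' : ℚ) - N / q) * W ≤ 1 * W := mul_le_mul_of_nonneg_right h5 hprod0
        _ ≤ 1 := by linarith
    have h4' : -1 ≤ ((N' : ℚ) - N / q) * W := by
      have h5 : -1 ≤ (N' : ℚ) - N / q := by linarith
      calc (-1 : ℚ) ≤ -1 * W := by linarith
        _ ≤ ((N' : ℚ) - N / q) * W := mul_le_mul_of_nonneg_right h5 hprod0
    have e : (N : ℚ) * ((1 - 1 / (q : ℚ)) * W) = N * W - N / q * W := by ring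
    rw [e]
    constructor
    · nlinarith [i1.1, i1.2, i2.1, i2.2, h4, h4']
    · nlinarith [i1.1, i1.2, i2.1, i2.2, h4, h4']

/-- `∏ (1 - 1/p) ≥ 2/(r+2)` over `r` different integers `≥ 3`. -/
theorem prod_ge (P : Finset ℕ) (hP : ∀ p ∈ P, 3 ≤ p) :
    (2 : ℚ) / (P.card + 2) ≤ ∏ p ∈ P, (1 - 1 / (p : ℚ)) := by
  induction P using Finset.strongInduction with
  | H P ih =>
    rcases P.eq_empty_or_nonempty with rfl | hne
    · simp
    · obtain ⟨q, hq, hmax⟩ := P.exists_max_image id hne
      have hcard : P.card + 2 ≤ q := by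
        have hsub : P ⊆ Finset.Icc 3 q := by
          intro p hp
          exact Finset.mem_Icc.2 ⟨hP p hp, hmax p hp⟩
        have := Finset.card_le_card hsub
        rw [Nat.card_Icc] at this
        have h3 := hP q hq
        omega
      have hpos : 0 < P.card := hne.card_pos
      have i1 := ih (P.erase q) (Finset.erase_ssubset hq)
        (fun p hp => hP p (Finset.mem_of_mem_erase hp))
      rw [Finset.card_erase_of_mem hq] at i1
      rw [← Finset.mul_prod_erase P _ hq]
      have hq0 : (0 : ℚ) < q := by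
        have := hP q hq
        exact_mod_cast (by omega : 0 < q)
      have hc0 : (0 : ℚ) < P.card + 2 := by positivity
      have h5 : (1 : ℚ) - 1 / (P.card + 2) ≤ 1 - 1 / q := by
        have : (1 : ℚ) / q ≤ 1 / (P.card + 2) := by
          apply one_div_le_one_div_of_le hc0
          exact_mod_cast hcard
        linarith
      have e1 : (((P.card - 1 : ℕ) : ℚ)) + 2 = P.card + 1 := by
        rw [Nat.cast_sub hpos]
        push_cast
        ring
      rw [e1] at i1
      have hc1 : (0 : ℚ) < P.card + 1 := by positivity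
      have h6 : (0 : ℚ) ≤ 1 - 1 / (P.card + 2) := by
        rw [sub_nonneg, div_le_one hc0]
        have : (0 : ℚ) ≤ P.card := by positivity
        linarith
      calc (2 : ℚ) / (P.card + 2) = (1 - 1 / (P.card + 2)) * (2 / (P.card + 1)) := by
            field_simp
            ring
        _ ≤ (1 - 1 / q) * ∏ p ∈ P.erase q, (1 - 1 / (p : ℚ)) :=
            mul_le_mul h5 i1 (by positivity) (le_trans h6 h5)

/-- Finitely many residue classes modulo different odd primes are avoided by a small number. -/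
theorem exists_avoid (P : Finset ℕ) (hP : ∀ p ∈ P, p.Prime ∧ p ≠ 2) (a : ℕ → ℤ) (N : ℕ)
    (hN : 2 ^ P.card * (P.card + 2) ≤ N) :
    ∃ j < N, ∀ p ∈ P, ¬ (p : ℤ) ∣ (j : ℤ) - a p := by
  have h1 := av_bound P (fun p hp => (hP p hp).1) a 0 1 (fun p _ => isCoprime_one_left) N
  have h2 := prod_ge P (fun p hp => by
    have := (hP p hp).1.two_le
    have := (hP p hp).2
    omega)
  have h3 : (0 : ℚ) < (av P a 0 1 N).card := by
    rw [abs_le] at h1
    have h4 : (2 : ℚ) ^ P.card * (P.card + 2) ≤ N := by exact_mod_cast hN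
    have hc0 : (0 : ℚ) < P.card + 2 := by positivity
    have h5 : (2 : ℚ) ^ P.card * (P.card + 2) * (2 / (P.card + 2)) ≤
        (N : ℚ) * ∏ p ∈ P, (1 - 1 / (p : ℚ)) := by
      exact mul_le_mul h4 h2 (by positivity) (by positivity)
    have h6 : (2 : ℚ) ^ P.card * (P.card + 2) * (2 / (P.card + 2)) = 2 * 2 ^ P.card := by
      field_simp
    rw [h6] at h5
    have h7 : (0 : ℚ) < 2 ^ P.card := by positivity
    linarith [h1.1]
  have h8 : 0 < (av P a 0 1 N).card := by exact_mod_cast h3
  obtain ⟨j, hj⟩ := Finset.card_pos.1 h8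
  simp only [av, mem_filter, mem_range] at hj
  refine ⟨j, hj.1, fun p hp => ?_⟩
  have := hj.2 p hp
  simpa using this

/-- The same in `ZMod p`: some `j < N` has `v p + j * δ p ≠ 0` for all `p` with `δ p ≠ 0`. -/
theorem exists_add_mul_ne (P : Finset ℕ) (hP : ∀ p ∈ P, p.Prime ∧ p ≠ 2) (v δ : ∀ p : ℕ, ZMod p)
    (N : ℕ) (hN : 2 ^ P.card * (P.card + 2) ≤ N) :
    ∃ j < N, ∀ p ∈ P, δ p ≠ 0 → v p + (j : ZMod p) * δ p ≠ 0 := by
  have hres : ∀ p ∈ P, ∃ a : ℤ, δ p ≠ 0 → ∀ x : ℕ, v p + (x : ZMod p) * δ p = 0 →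
      (p : ℤ) ∣ (x : ℤ) - a := by
    intro p hp
    haveI : Fact p.Prime := ⟨(hP p hp).1⟩
    refine ⟨((-(v p) / δ p : ZMod p).val : ℤ), fun hd x hx => ?_⟩
    rw [← ZMod.intCast_zmod_eq_zero_iff_dvd]
    push_cast
    rw [ZMod.natCast_zmod_val, sub_eq_zero, eq_div_iff hd]
    exact eq_neg_of_add_eq_zero_right hx
  choose! a ha using hres
  obtain ⟨j, hj1, hj2⟩ := exists_avoid P hP a N hN
  exact ⟨j, hj1, fun p hp hd h => hj2 p hp (ha p hp hd j h)⟩

/-- The sum `C + ∑ j_q δ_q` can be made a unit modulo all `p`. -/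
theorem numsel (S : Finset ℕ) (hS : ∀ p ∈ S, p.Prime ∧ p ≠ 2) (C : ∀ p : ℕ, ZMod p)
    (δ : ℕ → ∀ p : ℕ, ZMod p) (hδ : ∀ p ∈ S, δ p p ≠ 0) :
    ∃ j : ℕ → ℕ, (∀ p ∈ S, j p < 2 ^ S.card * (S.card + 2)) ∧
      ∀ p ∈ S, C p + ∑ q ∈ S, (j q : ZMod p) * δ q p ≠ 0 := by
  classical
  suffices h : ∀ Q ⊆ S, ∃ j : ℕ → ℕ, (∀ p ∈ Q, j p < 2 ^ S.card * (S.card + 2)) ∧
      ∀ p ∈ Q, C p + ∑ q ∈ Q, (j q : ZMod p) * δ q p ≠ 0 from h S (subset_refl _)
  intro Q
  induction Q using Finset.induction_on with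
  | empty => exact fun _ => ⟨fun _ => 0, by simp, by simp⟩
  | insert q Q hqQ ih =>
    intro hQ
    have hQS : Q ⊆ S := (subset_insert _ _).trans hQ
    have hqS : q ∈ S := hQ (mem_insert_self _ _)
    obtain ⟨j, hj1, hj2⟩ := ih hQS
    obtain ⟨x, hx1, hx2⟩ := exists_add_mul_ne (insert q Q) (fun p hp => hS p (hQ hp))
      (fun p => C p + ∑ q ∈ Q, (j q : ZMod p) * δ q p) (δ q) (2 ^ S.card * (S.card + 2)) (by
        have hc : (insert q Q).card ≤ S.card := card_le_card hQ
        exact Nat.mul_le_mul (Nat.pow_le_pow_right (by norm_num) hc) (by omega))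
    refine ⟨Function.update j q x, fun p hp => ?_, fun p hp => ?_⟩
    · by_cases h : p = q
      · subst h
        simpa using hx1
      · simpa [Function.update_of_ne h] using hj1 p ((mem_insert.1 hp).resolve_left h)
    · have e1 : ∑ t ∈ Q, ((Function.update j q x t : ℕ) : ZMod p) * δ t p =
          ∑ t ∈ Q, (j t : ZMod p) * δ t p := by
        refine sum_congr rfl fun p' hp' => ?_
        have : p' ≠ q := fun h => hqQ (h ▸ hp')
        rw [Function.update_of_ne this]
      rw [sum_insert hqQ, e1, Function.update_self]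
      have e2 : C p + ((x : ZMod p) * δ q p + ∑ t ∈ Q, (j t : ZMod p) * δ t p) =
          (C p + ∑ t ∈ Q, (j t : ZMod p) * δ t p) + (x : ZMod p) * δ q p := by ring
      rw [e2]
      by_cases hd : δ q p = 0
      · have hpq : p ≠ q := by
          rintro rfl
          exact hδ p hqS hd
        have hpQ : p ∈ Q := (mem_insert.1 hp).resolve_left hpq
        rw [hd, mul_zero, add_zero]
        exact hj2 p hpQ
      · exact hx2 p hp hd

end Pool.Agent.Lib.MP_688fd0_co.OSF.H43
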