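import Pool.Agent.Lib.MP_688fd0_co.OSF.Iface
import Pool.Agent.Lib.MP_688fd0_co.OSF.H43.Factor
import Pool.Agent.Lib.MP_688fd0_co.OSF.H43.Numsel

/-!
Modules FACTOR and NUMSEL in the form of the interface (helper43).
-/

set_option autoImplicit false

namespace Pool.Agent.Lib.MP_688fd0_co.OSF

universe u v

theorem numsel : NumselS :=
  fun S hS C δ hδ => H43.numsel S hS C δ hδ

theorem factor : FactorS.{u, v} := by
  intro G _ _ Q _ _ m π s z chi ν _ hs hz hm hker hchi hν A lab hA hcyc hv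
  obtain ⟨a, h1, h2, _⟩ := H43.factor π s hs z hz hm hker chi hchi ν hν A
    (fun t => t * π (lab t)) lab hA (fun _ => rfl) hcyc hv
  exact ⟨a, h1, h2⟩

end Pool.Agent.Lib.MP_688fd0_co.OSF
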