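import Pool.Agent.Lib.MP_688fd0_co.OSF.Iface

/-!
Module HDATA (helper43): a cyclic normal subgroup whose order is prime to its index.
-/

set_option autoImplicit false

namespace Pool.Agent.Lib.MP_688fd0_co.OSF

universe u

theorem hdata : HdataS.{u} := by
  intro G _ _ C hN hcyc hcop
  have hm0 : 0 < Nat.card C := Nat.card_pos
  have : NeZero (Nat.card C) := ⟨hm0.ne'⟩
  obtain ⟨c0, hc0⟩ := hcyc.exists_generator
  obtain ⟨K, hK⟩ := Subgroup.exists_right_complement'_of_coprime hcop
  -- the generator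
  set z : G := (c0 : G) with hz
  have hzC : Subgroup.zpowers z = C := by
    apply le_antisymm
    · rw [Subgroup.zpowers_le]; exact c0.2
    · intro x hx
      obtain ⟨k, hk⟩ := Subgroup.mem_zpowers_iff.1 (hc0 ⟨x, hx⟩)
      exact Subgroup.mem_zpowers_iff.2 ⟨k, by
        have := congrArg (Subtype.val) hk
        simpa using this⟩
  have hzo : orderOf z = Nat.card C := by
    rw [hz, Subgroup.orderOf_coe]
    exact orderOf_eq_card_of_forall_mem_zpowers hc0
  have hmemz : ∀ x ∈ C, ∃ n : ℕ, z ^ n = x := by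
    intro x hx
    rw [← hzC, ← mem_powers_iff_mem_zpowers] at hx
    exact (Submonoid.mem_powers_iff _ _).1 hx
  -- powers of the generator
  have hmod : ∀ n : ℕ, z ^ (n % Nat.card C) = z ^ n := by
    intro n
    rw [← hzo, pow_mod_orderOf]
  have zval : ∀ n : ℕ, z ^ ((n : ZMod (Nat.card C))).val = z ^ n := by
    intro n
    rw [ZMod.val_natCast, hmod]
  have zadd : ∀ a b : ZMod (Nat.card C), z ^ (a + b).val = z ^ a.val * z ^ b.val := by
    intro a b
    rw [ZMod.val_add, ← pow_add, hmod]
  have zmul : ∀ a b : ZMod (Nat.card C), z ^ (a * b).val = (z ^ a.val) ^ b.val := by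
    intro a b
    rw [ZMod.val_mul, ← pow_mul, hmod]
  have zinj : ∀ a b : ZMod (Nat.card C), z ^ a.val = z ^ b.val → a = b := by
    intro a b h
    rw [pow_eq_pow_iff_modEq, hzo, ← ZMod.natCast_eq_natCast_iff] at h
    rwa [ZMod.natCast_zmod_val, ZMod.natCast_zmod_val] at h
  have zzero : z ^ (0 : ZMod (Nat.card C)).val = 1 := by
    rw [ZMod.val_zero, pow_zero]
  have zone : z ^ (1 : ZMod (Nat.card C)).val = z := by
    have := zval 1
    rwa [Nat.cast_one, pow_one] at this
  -- the section
  set π : G →* G ⧸ C := QuotientGroup.mk' C with hπ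
  have hker : ∀ g, π g = 1 ↔ g ∈ C := by
    intro g
    rw [hπ, QuotientGroup.mk'_apply, QuotientGroup.eq_one_iff]
  have hbij : Function.Bijective (π.comp K.subtype) := by
    constructor
    · rw [injective_iff_map_eq_one]
      rintro ⟨k, hk⟩ h
      have h1 : k ∈ C := (hker k).1 h
      have h2 : k ∈ C ⊓ K := ⟨h1, hk⟩
      rw [hK.disjoint.eq_bot] at h2
      exact Subtype.ext (Subgroup.mem_bot.1 h2)
    · intro q
      obtain ⟨g, rfl⟩ := QuotientGroup.mk'_surjective C q
      obtain ⟨⟨c, k⟩, hck⟩ := hK.2 g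
      refine ⟨k, ?_⟩
      have : π g = π (c : G) * π (k : G) := by
        rw [← map_mul]
        exact congrArg π hck.symm
      rw [show π (c : G) = 1 from (hker _).2 c.2, one_mul] at this
      exact this.symm
  set e : K ≃* G ⧸ C := MulEquiv.ofBijective (π.comp K.subtype) hbij with he
  set s : G ⧸ C →* G := K.subtype.comp e.symm.toMonoidHom with hs
  have hsec : ∀ q, π (s q) = q := by
    intro q
    exact e.apply_symm_apply q
  -- the action
  have hact : ∀ q, ∃ n : ℕ, z ^ n = s q * z * (s q)⁻¹ := by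
    intro q
    exact hmemz _ (hN.conj_mem z (by rw [← hzC]; exact Subgroup.mem_zpowers z) (s q))
  choose f hf using hact
  have hf' : ∀ q, s q * z * (s q)⁻¹ = z ^ ((f q : ZMod (Nat.card C))).val := by
    intro q
    rw [zval, hf]
  set chi : G ⧸ C →* ZMod (Nat.card C) :=
    { toFun := fun q => (f q : ZMod (Nat.card C))
      map_one' := by
        apply zinj
        rw [← hf', map_one, zone]
        group
      map_mul' := by
        intro q q'
        apply zinj
        rw [← hf', map_mul, zmul, ← hf', conj_pow, zval, hf]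
        group } with hchi
  have hchi' : ∀ q, s q * z * (s q)⁻¹ = z ^ (chi q).val := hf'
  -- the component
  have hcomp : ∀ g, ∃ n : ℕ, z ^ n = g * (s (π g))⁻¹ := by
    intro g
    refine hmemz _ ((hker _).1 ?_)
    rw [map_mul, map_inv, hsec, mul_inv_cancel]
  choose ν0 hν0 using hcomp
  set ν : G → ZMod (Nat.card C) := fun g => (ν0 g : ZMod (Nat.card C)) with hν
  have hν' : ∀ g, g = z ^ (ν g).val * s (π g) := by
    intro g
    rw [hν, zval, hν0]
    group
  have huniq : ∀ (g : G) (x : ZMod (Nat.card C)), g = z ^ x.val * s (π g) → x = ν g := by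
    intro g x h
    apply zinj
    exact mul_right_cancel (h.symm.trans (hν' g))
  have hconj : ∀ (q : G ⧸ C) (n : ZMod (Nat.card C)),
      s q * z ^ n.val = z ^ (chi q * n).val * s q := by
    intro q n
    rw [zmul, ← hchi', conj_pow]
    group
  have hπz : ∀ n : ℕ, π (z ^ n) = 1 := fun n =>
    (hker _).2 (C.pow_mem (by rw [← hzC]; exact Subgroup.mem_zpowers z) n)
  have hνmul : ∀ g h, ν (g * h) = ν g + chi (π g) * ν h := by
    intro g h
    symm
    apply huniq
    rw [zadd, map_mul, map_mul]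
    calc g * h = z ^ (ν g).val * s (π g) * (z ^ (ν h).val * s (π h)) := by
          rw [← hν' g, ← hν' h]
      _ = z ^ (ν g).val * (s (π g) * z ^ (ν h).val) * s (π h) := by
          simp only [mul_assoc]
      _ = _ := by
          rw [hconj]
          simp only [mul_assoc]
  have hν1 : ν 1 = 0 := by
    symm
    apply huniq
    rw [zzero, map_one, map_one, one_mul]
  have hνz : ∀ x : ZMod (Nat.card C), ν (z ^ x.val) = x := by
    intro x
    symm
    apply huniq
    rw [hπz, map_one, mul_one]
  refine ⟨s, z, chi, ν, hsec, hzC, hzo, hchi', hν', ?_, ?_, ?_⟩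
  · intro g
    have h1 := hνmul g⁻¹ g
    rw [inv_mul_cancel, hν1, map_inv] at h1
    exact eq_neg_of_add_eq_zero_left h1.symm
  · intro g h hgh
    have h1 : ν (g * h) = ν ((g * h * g⁻¹ * h⁻¹)) + ν (h * g) := by
      have h2 := hνmul (g * h * g⁻¹ * h⁻¹) (h * g)
      have h3 : π (g * h * g⁻¹ * h⁻¹) = 1 := by
        have h4 : g * h * g⁻¹ * h⁻¹ = (g * h) * (h * g)⁻¹ := by group
        rw [h4, map_mul, map_inv, hgh, mul_inv_cancel]
      rw [h3, map_one, one_mul] at h2
      rw [← h2]
      congr 1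
      group
    have h3 : g * h * g⁻¹ * h⁻¹ ∈ C := by
      rw [← hker]
      have h4 : g * h * g⁻¹ * h⁻¹ = (g * h) * (h * g)⁻¹ := by group
      rw [h4, map_mul, map_inv, hgh, mul_inv_cancel]
    have h4 : g * h * g⁻¹ * h⁻¹ = z ^ (ν (g * h * g⁻¹ * h⁻¹)).val := by
      have h5 := hν' (g * h * g⁻¹ * h⁻¹)
      rw [(hker _).2 h3, map_one, mul_one] at h5
      exact h5
    have h5 : ν (g * h * g⁻¹ * h⁻¹) = (chi (π g) - 1) * ν h - (chi (π h) - 1) * ν g := by
      rw [hνmul g h, hνmul h g] at h1
      linear_combination -h1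
    rw [← h5]
    exact h4
  · intro u hu
    apply zinj
    rw [← hchi', zone]
    have h1 : s (π u) = (z ^ (ν u).val)⁻¹ * u := by
      rw [eq_inv_mul_iff_mul_eq]
      exact (hν' u).symm
    have h2 : u * z = z * u := hu z (by rw [← hzC]; exact Subgroup.mem_zpowers z)
    rw [h1]
    calc (z ^ (ν u).val)⁻¹ * u * z * ((z ^ (ν u).val)⁻¹ * u)⁻¹
        = (z ^ (ν u).val)⁻¹ * (u * z) * u⁻¹ * z ^ (ν u).val := by group
      _ = (z ^ (ν u).val)⁻¹ * z * z ^ (ν u).val := by rw [h2]; group
      _ = z := by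
        rw [mul_assoc, ← pow_succ', pow_succ]
        group

end Pool.Agent.Lib.MP_688fd0_co.OSF
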